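import Mathlib
import Pool.Agent.TH841.NF.ShaN

/-!
# Descent of the Tate-Shafarevich group along a normal extension

`k' / k` is a normal extension of number fields, `W` and `W'` are curves over `k` and `k'` which are
isomorphic over `k'`.  If `W'(k')` is finite of order prime to `p` and `Ш(W')` has no element of order
`p`, then `Ш(W)` has no element of order `p`.
-/

set_option autoImplicit false
set_option linter.all false

namespace Pool.Agent.W2helper55.TQ

open WeierstrassCurve NumberField IsDedekindDomain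
open Pool.Agent.TH841.SH.D (Pt act Gal Coch IsCoc IsCob LocTriv cob)
open Pool.Agent.TH841.NF.D (IsShaCoc shaCoc Sha)

section gen
variable {k : Type} [Field k] (W : WeierstrassCurve k)

lemma act_act {F L M : Type} [Field F] [Field L] [Field M] [Algebra k F]
    [Algebra k L] [Algebra k M] (φ : F →ₐ[k] L) (ψ : L →ₐ[k] M) (P : Pt W F) :
    act W ψ (act W φ P) = act W (ψ.comp φ) P := by
  rcases P with _ | ⟨x, y, h⟩
  · rfl
  · rfl

lemma act_inj {F L : Type} [Field F] [Field L] [Algebra k F]
    [Algebra k L] (φ : F →ₐ[k] L) : Function.Injective (act W φ) :=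
  @Affine.Point.map_injective k k F L _ _ _ _ W (Classical.decEq F) (Classical.decEq L) _ _ _ _ _ _ _ φ

lemma pt_ext {L : Type} [Field L] [Algebra k L] {x y x' y' : L}
    {h : (W.baseChange L).toAffine.Nonsingular x y}
    {h' : (W.baseChange L).toAffine.Nonsingular x' y'} :
    @Eq (Pt W L) (Affine.Point.some x y h : (W.baseChange L).toAffine.Point)
      (Affine.Point.some x' y' h' : (W.baseChange L).toAffine.Point) ↔ x = x' ∧ y = y' := by
  constructor
  · intro h
    have := (Affine.Point.some.injEq ..).to_iff.1 h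
    exact this
  · rintro ⟨rfl, rfl⟩
    rfl

/-- a point that is fixed by the Galois group -/
theorem fixed_pt {L : Type} [Field L] [Algebra k L] [IsGalois k L] (P : Pt W L)
    (hP : ∀ τ : L ≃ₐ[k] L, act W (τ : L →ₐ[k] L) P = P) :
    ∃ Q : Pt W k, act W (Algebra.ofId k L) Q = P := by
  rcases P with _ | ⟨x, y, hxy⟩
  · exact ⟨0, rfl⟩
  · have hx : x ∈ Set.range (algebraMap k L) := by
      rw [InfiniteGalois.mem_range_algebraMap_iff_fixed]
      intro τ
      exact ((pt_ext W).1 (hP τ)).1
    have hy : y ∈ Set.range (algebraMap k L) := by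
      rw [InfiniteGalois.mem_range_algebraMap_iff_fixed]
      intro τ
      exact ((pt_ext W).1 (hP τ)).2
    obtain ⟨x', rfl⟩ := hx
    obtain ⟨y', rfl⟩ := hy
    have hxy' : (W.baseChange k).toAffine.Nonsingular x' y' :=
      (W.toAffine.baseChange_nonsingular (Algebra.ofId k L).injective x' y').1 hxy
    exact ⟨Affine.Point.some x' y' hxy', rfl⟩

end gen

/-- compatible isomorphisms of the groups of points over all the extensions of `k'` -/
structure CI {k k' : Type} [Field k] [Field k'] [Algebra k k'] (W : WeierstrassCurve k)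
    (W' : WeierstrassCurve k') where
  /-- the isomorphisms -/
  e : ∀ (L : Type) [Field L] [Algebra k L] [Algebra k' L] [IsScalarTower k k' L],
    Pt W' L ≃+ Pt W L
  /-- they commute with the homomorphisms of fields -/
  ac : ∀ {L M : Type} [Field L] [Algebra k L] [Algebra k' L] [IsScalarTower k k' L] [Field M]
    [Algebra k M] [Algebra k' M] [IsScalarTower k k' M] (φ : L →ₐ[k'] M) (P : Pt W' L),
    e M (act W' φ P) = act W (φ.restrictScalars k) (e L P)

section cj
variable {k k' : Type} [Field k] [Field k'] [Algebra k k']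
  (ε : AlgebraicClosure k ≃ₐ[k] AlgebraicClosure k')

/-- conjugation -/
noncomputable def cjk (σ : AlgebraicClosure k' ≃ₐ[k] AlgebraicClosure k') : Gal k :=
  (ε.trans σ).trans ε.symm

@[simp] lemma cjk_apply (σ : AlgebraicClosure k' ≃ₐ[k] AlgebraicClosure k') (x : AlgebraicClosure k) :
    cjk ε σ x = ε.symm (σ (ε x)) := rfl

lemma cjk_mul (σ τ : AlgebraicClosure k' ≃ₐ[k] AlgebraicClosure k') :
    cjk ε (σ * τ) = cjk ε σ * cjk ε τ := by
  apply AlgEquiv.ext
  intro x
  show ε.symm (σ (τ (ε x))) = ε.symm (σ (ε (ε.symm (τ (ε x)))))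
  rw [ε.apply_symm_apply]

/-- restriction -/
noncomputable def cj (τ : Gal k') : Gal k := cjk ε (τ.restrictScalars k)

@[simp] lemma cj_apply (τ : Gal k') (x : AlgebraicClosure k) :
    cj ε τ x = ε.symm (τ (ε x)) := rfl

lemma cj_mul (σ τ : Gal k') : cj ε (σ * τ) = cj ε σ * cj ε τ := by
  apply AlgEquiv.ext
  intro x
  show ε.symm (σ (τ (ε x))) = ε.symm (σ (ε (ε.symm (τ (ε x)))))
  rw [ε.apply_symm_apply]

/-- The restriction is continuous. -/
theorem cj_cont [CharZero k] : Continuous (cj ε) := by
  have : CharZero k' := charZero_of_injective_algebraMap (algebraMap k k').injective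
  let φ : Gal k' →* Gal k :=
    { toFun := cj ε
      map_one' := by
        apply AlgEquiv.ext
        intro x
        show ε.symm (ε x) = x
        rw [ε.symm_apply_apply]
      map_mul' := cj_mul ε }
  have hc : Continuous φ := by
    apply continuous_of_continuousAt_one
    unfold ContinuousAt
    rw [map_one]
    intro s hs
    obtain ⟨E, hE, hEs⟩ := (krullTopology_mem_nhds_one_iff k (AlgebraicClosure k) s).1 hs
    obtain ⟨α, hα⟩ := Field.exists_primitive_element k E
    have ho : (MulAction.stabilizer (Gal k') (ε (α : AlgebraicClosure k)) : Set (Gal k')) ∈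
        nhds (1 : Gal k') :=
      (stabilizer_isOpen_of_isIntegral (K := k') (ε (α : AlgebraicClosure k))).mem_nhds
        (MulAction.stabilizer (Gal k') (ε (α : AlgebraicClosure k))).one_mem
    rw [Filter.mem_map]
    refine Filter.mem_of_superset ho fun τ hτ => hEs ?_
    have hτ' : τ (ε (α : AlgebraicClosure k)) = ε α := hτ
    show φ τ ∈ E.fixingSubgroup
    rw [IntermediateField.mem_fixingSubgroup_iff]
    intro x hx
    have key : ((φ τ).toAlgHom.comp E.val) = E.val := by
      refine AlgHom.ext fun y => ?_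
      have hy : y ∈ (⊤ : IntermediateField k E) := trivial
      rw [← hα] at hy
      refine IntermediateField.adjoin_induction k
        (p := fun y _ => ((φ τ).toAlgHom.comp E.val) y = E.val y) ?_ ?_ ?_ ?_ ?_ hy
      · intro y hy
        rw [Set.mem_singleton_iff] at hy
        subst hy
        show ε.symm (τ (ε (y : AlgebraicClosure k))) = y
        rw [hτ', ε.symm_apply_apply]
      · intro y
        rw [AlgHom.commutes, AlgHom.commutes]
      · intro x y _ _ hx hy
        rw [map_add, map_add, hx, hy]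
      · intro x _ hx
        rw [map_inv₀, map_inv₀, hx]
      · intro x y _ _ hx hy
        rw [map_mul, map_mul, hx, hy]
    exact congrArg (fun ψ : E →ₐ[k] AlgebraicClosure k => ψ ⟨x, hx⟩) key
  exact hc

end cj

section range

/-- an element that is algebraic is in the image of an algebraic closure -/
lemma mem_range_alg {Ψ Ψ' : Type} [Field Ψ] [IsAlgClosed Ψ] [Field Ψ'] (κ : Ψ →+* Ψ') {K : Type}
    [Field K] (g : K →+* Ψ) {y : Ψ'} (hy : (κ.comp g).IsIntegralElem y) : ∃ x, κ x = y := by
  letI : Algebra Ψ Ψ' := κ.toAlgebra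
  have h1 : IsIntegral Ψ y := by
    obtain ⟨p, hp, hy⟩ := hy
    refine ⟨p.map g, hp.map g, ?_⟩
    rw [Polynomial.eval₂_map]
    exact hy
  exact minpoly.mem_range_of_degree_eq_one Ψ y
    (IsAlgClosed.degree_eq_one_of_irreducible Ψ (minpoly.irreducible h1))

/-- a homomorphism to the larger field comes from the smaller field -/
lemma exists_fact {K A Ψ Ψ' : Type} [Field K] [Field A] [Field Ψ] [IsAlgClosed Ψ] [Field Ψ']
    [Algebra K A] [Algebra K Ψ] [Algebra K Ψ'] [Algebra.IsAlgebraic K A]
    (κ : Ψ →ₐ[K] Ψ') (φ : A →ₐ[K] Ψ') : ∃ φ' : A →ₐ[K] Ψ, ∀ x, κ (φ' x) = φ x := by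
  have hr : ∀ x, φ x ∈ κ.range := by
    intro x
    have h1 : IsIntegral K x := Algebra.IsIntegral.isIntegral x
    have h2 : IsIntegral K (φ x) := h1.map φ
    have h3 : ((κ : Ψ →+* Ψ').comp (algebraMap K Ψ)) = algebraMap K Ψ' :=
      RingHom.ext fun z => κ.commutes z
    have h4 : ((κ : Ψ →+* Ψ').comp (algebraMap K Ψ)).IsIntegralElem (φ x) := by
      rw [h3]
      exact h2
    obtain ⟨z, hz⟩ := mem_range_alg (κ : Ψ →+* Ψ') (algebraMap K Ψ) h4
    exact ⟨z, hz⟩
  let e : Ψ ≃ₐ[K] κ.range := AlgEquiv.ofInjective κ κ.injective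
  refine ⟨(e.symm : κ.range →ₐ[K] Ψ).comp (φ.codRestrict κ.range hr), fun x => ?_⟩
  have h5 : ((e (e.symm (φ.codRestrict κ.range hr x)) : κ.range) : Ψ') = φ x := by
    rw [e.apply_symm_apply]
    rfl
  exact h5

end range

section main
variable {k k' : Type} [Field k] [Field k'] [Algebra k k'] {W : WeierstrassCurve k}
  {W' : WeierstrassCurve k'} (I : CI W W') (ε : AlgebraicClosure k ≃ₐ[k] AlgebraicClosure k')

/-- the restriction of a function -/
noncomputable def res (f : Coch W) : Coch W' := fun τ =>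
  (I.e (AlgebraicClosure k')).symm (act W (ε : AlgebraicClosure k →ₐ[k] AlgebraicClosure k')
    (f (cj ε τ)))

lemma res_apply (f : Coch W) (τ : Gal k') : I.e (AlgebraicClosure k') (res I ε f τ) =
    act W (ε : AlgebraicClosure k →ₐ[k] AlgebraicClosure k') (f (cj ε τ)) :=
  AddEquiv.apply_symm_apply _ _

lemma act_cjk (σ : AlgebraicClosure k' ≃ₐ[k] AlgebraicClosure k') (P : Pt W (AlgebraicClosure k)) :
    act W (ε : AlgebraicClosure k →ₐ[k] AlgebraicClosure k') (act W (cjk ε σ).toAlgHom P) =
      act W (σ : AlgebraicClosure k' →ₐ[k] AlgebraicClosure k')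
        (act W (ε : AlgebraicClosure k →ₐ[k] AlgebraicClosure k') P) := by
  rw [act_act, act_act]
  congr 1
  apply congrArg
  apply AlgHom.ext
  intro x
  show ε (ε.symm (σ (ε x))) = σ (ε x)
  rw [ε.apply_symm_apply]

lemma act_cj (τ : Gal k') (P : Pt W (AlgebraicClosure k)) :
    act W (ε : AlgebraicClosure k →ₐ[k] AlgebraicClosure k') (act W (cj ε τ).toAlgHom P) =
      act W (τ.toAlgHom.restrictScalars k)
        (act W (ε : AlgebraicClosure k →ₐ[k] AlgebraicClosure k') P) :=
  act_cjk ε (τ.restrictScalars k) P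

lemma res_coc [CharZero k] {f : Coch W} (hf : IsCoc W f) : IsCoc W' (res I ε f) := by
  refine ⟨?_, fun σ τ => ?_⟩
  · exact (hf.1.comp_continuous (cj_cont ε)).comp (fun P =>
      (I.e (AlgebraicClosure k')).symm (act W (ε : AlgebraicClosure k →ₐ[k] AlgebraicClosure k') P))
  · apply (I.e (AlgebraicClosure k')).injective
    rw [map_add, res_apply, res_apply, I.ac, res_apply, cj_mul, hf.2, map_add, act_cj]

lemma res_cob {f : Coch W} (hf : IsCob W f) : IsCob W' (res I ε f) := by
  obtain ⟨P, hP⟩ := hf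
  refine ⟨(I.e (AlgebraicClosure k')).symm
    (act W (ε : AlgebraicClosure k →ₐ[k] AlgebraicClosure k') P), fun τ => ?_⟩
  apply (I.e (AlgebraicClosure k')).injective
  rw [map_sub, res_apply, I.ac, AddEquiv.apply_symm_apply, hP, map_sub, act_cj]

lemma res_add (f g : Coch W) : res I ε (f + g) = res I ε f + res I ε g := by
  funext τ
  apply (I.e (AlgebraicClosure k')).injective
  show _ = I.e (AlgebraicClosure k') (res I ε f τ + res I ε g τ)
  rw [map_add, res_apply, res_apply, res_apply, ← map_add]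
  rfl

/-- local triviality of the restriction -/
theorem res_loc {K K' : Type} [Field K] [Field K'] [Algebra k K] [Algebra k' K'] [Algebra k K']
    [IsScalarTower k k' K'] [Algebra.IsAlgebraic k k'] (j : K →ₐ[k] K') {f : Coch W}
    (hf : LocTriv W K f) : LocTriv W' K' (res I ε f) := by
  intro ι
  -- the extension of `j`
  letI : Algebra K K' := (j : K →+* K').toAlgebra
  haveI : IsScalarTower k K K' := IsScalarTower.of_algebraMap_eq fun x => (j.commutes x).symm
  haveI : IsScalarTower k K (AlgebraicClosure K') := inferInstance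
  let κ0 : AlgebraicClosure K →ₐ[K] AlgebraicClosure K' := IsAlgClosed.lift
  let κ : AlgebraicClosure K →ₐ[k] AlgebraicClosure K' := κ0.restrictScalars k
  haveI : Algebra.IsAlgebraic k (AlgebraicClosure k) := inferInstance
  obtain ⟨ι', hι'⟩ := exists_fact κ ((ι.restrictScalars k).comp
    (ε : AlgebraicClosure k →ₐ[k] AlgebraicClosure k'))
  have hι : ∀ x, κ (ι' x) = ι (ε x) := hι'
  obtain ⟨P, hP⟩ := hf ι'
  refine ⟨(I.e (AlgebraicClosure K')).symm (act W κ P), fun τ σ h => ?_⟩
  apply (I.e (AlgebraicClosure K')).injective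
  rw [map_sub, I.ac, I.ac, res_apply, AddEquiv.apply_symm_apply]
  -- the restriction of `τ`
  obtain ⟨τ0, hτ0⟩ := exists_fact κ0 (((τ.toAlgHom.restrictScalars K).comp κ0))
  let τ' : Gal K := AlgEquiv.ofBijective τ0 (Algebra.IsAlgebraic.algHom_bijective τ0)
  have hτ' : ∀ x, κ (τ' x) = τ (κ x) := hτ0
  have h1 : ∀ x, τ' (ι' x) = ι' (cj ε σ x) := by
    intro x
    apply (κ : AlgebraicClosure K →+* AlgebraicClosure K').injective
    show κ (τ' (ι' x)) = κ (ι' (cj ε σ x))
    rw [hτ', hι, h, hι, cj_apply, ε.apply_symm_apply]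
  have h2 := congrArg (act W κ) (hP τ' (cj ε σ) h1)
  rw [map_sub, act_act, act_act] at h2
  rw [act_act, act_act]
  have e1 : κ.comp ι' = ((ι.restrictScalars k).comp
      (ε : AlgebraicClosure k →ₐ[k] AlgebraicClosure k')) := AlgHom.ext hι'
  have e2 : κ.comp (τ'.toAlgHom.restrictScalars k) =
      ((τ.toAlgHom.restrictScalars k').restrictScalars k).comp κ := AlgHom.ext hτ'
  rw [e1, e2] at h2
  exact h2

/-- a cocycle whose restriction is a coboundary -/
theorem cob_of_res [CharZero k] [Normal k k'] {p : ℕ}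
    (hcop : p.Coprime (Nat.card (Pt W' k'))) {f : Coch W} (hf : IsCoc W f)
    {P0 : Pt W (AlgebraicClosure k)} (hp : ∀ σ, p • f σ = act W σ.toAlgHom P0 - P0)
    (hr : IsCob W' (res I ε f)) : IsCob W f := by
  have : CharZero k' := charZero_of_injective_algebraMap (algebraMap k k').injective
  set E : AlgebraicClosure k →ₐ[k] AlgebraicClosure k' := (ε : AlgebraicClosure k →ₐ[k] AlgebraicClosure k') with hE
  obtain ⟨Q', hQ'⟩ := hr
  set Q := I.e (AlgebraicClosure k') Q' with hQ
  have h1 : ∀ τ : Gal k', act W E (f (cj ε τ)) = act W (τ.toAlgHom.restrictScalars k) Q - Q := by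
    intro τ
    rw [hQ, ← I.ac, ← map_sub, ← hQ', res_apply]
  -- the cocycle on the larger group
  set h : (AlgebraicClosure k' ≃ₐ[k] AlgebraicClosure k') → Pt W (AlgebraicClosure k') := fun σ =>
    act W E (f (cjk ε σ)) - (act W (σ : AlgebraicClosure k' →ₐ[k] AlgebraicClosure k') Q - Q) with hh
  have hm : ∀ σ τ, h (σ * τ) = h σ + act W (σ : AlgebraicClosure k' →ₐ[k] AlgebraicClosure k') (h τ) := by
    intro σ τ
    have e1 : act W ((σ * τ : AlgebraicClosure k' ≃ₐ[k] AlgebraicClosure k') :
        AlgebraicClosure k' →ₐ[k] AlgebraicClosure k') Q =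
        act W (σ : AlgebraicClosure k' →ₐ[k] AlgebraicClosure k')
          (act W (τ : AlgebraicClosure k' →ₐ[k] AlgebraicClosure k') Q) := by
      rw [act_act]
      rfl
    simp only [hh]
    rw [cjk_mul, hf.2, map_add, act_cjk, e1, map_sub, map_sub]
    abel
  have h0 : ∀ τ : Gal k', h (τ.restrictScalars k) = 0 := by
    intro τ
    simp only [hh]
    rw [sub_eq_zero]
    exact h1 τ
  have hfix : ∀ (σ : AlgebraicClosure k' ≃ₐ[k] AlgebraicClosure k') (τ : Gal k'),
      act W (τ.toAlgHom.restrictScalars k) (h σ) = h σ := by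
    intro σ τ
    -- the conjugate of `τ`
    obtain ⟨τ', hτ'⟩ : ∃ τ' : Gal k', (τ.restrictScalars k) * σ = σ * (τ'.restrictScalars k) := by
      have hc : ∀ x : k', (σ⁻¹ * (τ.restrictScalars k) * σ) (algebraMap k' (AlgebraicClosure k') x) =
          algebraMap k' (AlgebraicClosure k') x := by
        intro x
        have e1 := (σ.restrictNormal_commutes k' x)
        rw [AlgEquiv.mul_apply, AlgEquiv.mul_apply, ← e1]
        have e2 : (τ.restrictScalars k) (algebraMap k' (AlgebraicClosure k')
            ((σ.restrictNormal k') x)) = algebraMap k' (AlgebraicClosure k')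
            ((σ.restrictNormal k') x) := τ.commutes _
        rw [e2, e1, ← AlgEquiv.mul_apply, inv_mul_cancel, AlgEquiv.one_apply]
      refine ⟨AlgEquiv.ofRingEquiv (f := (σ⁻¹ * (τ.restrictScalars k) * σ).toRingEquiv) hc, ?_⟩
      apply AlgEquiv.ext
      intro x
      show (τ.restrictScalars k) (σ x) = σ ((σ⁻¹ * (τ.restrictScalars k) * σ) x)
      rw [AlgEquiv.mul_apply, AlgEquiv.mul_apply, ← AlgEquiv.mul_apply σ σ⁻¹, mul_inv_cancel,
        AlgEquiv.one_apply]
    have e3 := hm (τ.restrictScalars k) σ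
    rw [hτ', hm, h0, h0, map_zero, add_zero, zero_add] at e3
    exact e3.symm
  -- the values are killed by the order
  have hN : ∀ σ, Nat.card (Pt W' k') • h σ = 0 := by
    intro σ
    haveI : IsGalois k' (AlgebraicClosure k') := inferInstance
    obtain ⟨R, hR⟩ := fixed_pt W' ((I.e (AlgebraicClosure k')).symm (h σ)) (fun τ => by
      apply (I.e (AlgebraicClosure k')).injective
      rw [I.ac, AddEquiv.apply_symm_apply]
      exact hfix σ τ)
    apply (I.e (AlgebraicClosure k')).symm.injective
    rw [map_nsmul, ← hR, ← map_nsmul, map_zero]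
    have e1 : Nat.card (Pt W' k') • R = 0 := card_nsmul_eq_zero'
    rw [e1, map_zero]
  have h3 : ∀ σ, p • h σ = act W (σ : AlgebraicClosure k' →ₐ[k] AlgebraicClosure k')
      (act W E P0 - p • Q) - (act W E P0 - p • Q) := by
    intro σ
    simp only [hh]
    rw [smul_sub, ← map_nsmul, hp, map_sub, act_cjk, map_sub, smul_sub, map_nsmul]
    abel
  -- Bezout
  obtain ⟨b, a, hab⟩ : ∃ b a : ℤ, b * p + a * (Nat.card (Pt W' k') : ℤ) = 1 := by
    have := Nat.isCoprime_iff_coprime.2 hcop
    exact this
  have h4 : ∀ σ, h σ = act W (σ : AlgebraicClosure k' →ₐ[k] AlgebraicClosure k')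
      (b • (act W E P0 - p • Q)) - b • (act W E P0 - p • Q) := by
    intro σ
    rw [map_zsmul, ← smul_sub, ← h3]
    have e1 : (1 : ℤ) • h σ = h σ := one_zsmul _
    rw [← hab, add_zsmul, mul_zsmul, mul_zsmul, natCast_zsmul, natCast_zsmul, hN, smul_zero,
      add_zero] at e1
    exact e1.symm
  -- back
  set S : AlgebraicClosure k' →ₐ[k] AlgebraicClosure k := (ε.symm : AlgebraicClosure k' →ₐ[k] AlgebraicClosure k) with hS
  set T := b • (act W E P0 - p • Q) + Q with hT
  have h5 : ∀ σ : AlgebraicClosure k' ≃ₐ[k] AlgebraicClosure k', act W E (f (cjk ε σ)) =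
      act W (σ : AlgebraicClosure k' →ₐ[k] AlgebraicClosure k') T - T := by
    intro σ
    have e1 : act W E (f (cjk ε σ)) = h σ +
        (act W (σ : AlgebraicClosure k' →ₐ[k] AlgebraicClosure k') Q - Q) := by
      simp only [hh]
      abel
    rw [e1, h4, hT, map_add]
    abel
  refine ⟨act W S T, fun σ => ?_⟩
  apply act_inj W E
  have e2 : cjk ε ((ε.symm.trans σ).trans ε) = σ := by
    apply AlgEquiv.ext
    intro x
    show ε.symm (ε (σ (ε.symm (ε x)))) = σ x
    rw [ε.symm_apply_apply, ε.symm_apply_apply]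
  have e3 := h5 ((ε.symm.trans σ).trans ε)
  rw [e2] at e3
  rw [e3, map_sub, act_act, act_act, act_act]
  have e4 : E.comp S = AlgHom.id k (AlgebraicClosure k') := by
    apply AlgHom.ext
    intro x
    show ε (ε.symm x) = x
    rw [ε.apply_symm_apply]
  have e5 : act W (AlgHom.id k (AlgebraicClosure k')) T = T := by
    rcases T with _ | ⟨x, y, hxy⟩ <;> rfl
  rw [e4, e5]
  rfl

end main

end Pool.Agent.W2helper55.TQ
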