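import Mathlib
import Pool.Agent.TH115.TC.Compl
import Pool.Agent.W2helper55.TQ.Ds

/-!
# Descent of the Tate-Shafarevich group along a normal extension of the rational numbers
-/

set_option autoImplicit false
set_option linter.all false

namespace Pool.Agent.W2helper55.TQ

open WeierstrassCurve NumberField IsDedekindDomain
open Pool.Agent.TH841.SH.D (Pt act Gal Coch IsCoc IsCob LocTriv cob)
open Pool.Agent.TH841.NF.D (IsShaCoc shaCoc Sha)

/-- the homomorphism of the completions at the finite places -/
theorem exists_j {k k' : Type} [Field k] [NumberField k] [Field k'] [NumberField k'] [Algebra k k']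
    (w : HeightOneSpectrum (𝓞 k')) : ∃ (v : HeightOneSpectrum (𝓞 k))
      (j : v.adicCompletion k →+* w.adicCompletion k'),
      ∀ x : k, j (algebraMap k _ x) = algebraMap k' _ (algebraMap k k' x) := by
  let v : HeightOneSpectrum (𝓞 k) := HeightOneSpectrum.under (𝓞 k) w
  haveI : w.asIdeal.LiesOver v.asIdeal := ⟨rfl⟩
  have hne : v.asIdeal.ramificationIdx' w.asIdeal ≠ 0 :=
    Ideal.IsDedekindDomain.ramificationIdx'_ne_zero_of_liesOver w.asIdeal v.ne_bot
  have hv : ∀ x, v.valuation k x ^ v.asIdeal.ramificationIdx' w.asIdeal =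
    w.valuation k' (algebraMap k k' x) := HeightOneSpectrum.valuation_liesOver k' v w
  obtain ⟨j, hj, -, -⟩ := Pool.Agent.TH115.GD.exists_compl_map v w (algebraMap k k')
    (fun x hx => by rw [← hv]; exact pow_le_one₀ zero_le hx)
    (fun x hx => by rw [← hv]; exact pow_lt_one₀ zero_le hx hne)
  exact ⟨v, j, hj⟩

/-- a homomorphism between the completions at the infinite places -/
theorem exists_jinf {K : Type} [Field K] [NumberField K] (v : InfinitePlace K)
    (u : InfinitePlace ℚ) : Nonempty (u.Completion →+* v.Completion) := by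
  have hu : u.IsReal := by
    rw [Subsingleton.elim u Rat.infinitePlace]
    exact Rat.isReal_infinitePlace
  let e1 : u.Completion ≃+* ℝ := InfinitePlace.Completion.ringEquivRealOfIsReal hu
  rcases v.isReal_or_isComplex with hv | hv
  · exact ⟨((InfinitePlace.Completion.ringEquivRealOfIsReal hv).symm : ℝ →+* v.Completion).comp
      (e1 : u.Completion →+* ℝ)⟩
  · exact ⟨((InfinitePlace.Completion.ringEquivComplexOfIsComplex hv).symm :
      ℂ →+* v.Completion).comp (Complex.ofRealHom.comp (e1 : u.Completion →+* ℝ))⟩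

/-- the homomorphisms of the completions at the infinite places -/
def HInf (k k' : Type) [Field k] [Field k'] [Algebra k k'] : Prop :=
  ∀ w : InfinitePlace k', ∃ (u : InfinitePlace k) (j : u.Completion →+* w.Completion),
    ∀ x : k, j (algebraMap k _ x) = algebraMap k' _ (algebraMap k k' x)

theorem hinf_rat (k' : Type) [Field k'] [NumberField k'] : HInf ℚ k' := by
  intro w
  obtain ⟨j⟩ := exists_jinf w Rat.infinitePlace
  exact ⟨Rat.infinitePlace, j, fun x => RingHom.congr_fun (Subsingleton.elim
    (j.comp (algebraMap ℚ (Rat.infinitePlace.Completion)))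
    ((algebraMap k' w.Completion).comp (algebraMap ℚ k'))) x⟩

section
variable {k k' : Type} [Field k] [NumberField k] [Field k'] [NumberField k'] [Algebra k k']
  {W : WeierstrassCurve k} {W' : WeierstrassCurve k'} (I : CI W W')
  (ε : AlgebraicClosure k ≃ₐ[k] AlgebraicClosure k')

/-- the restriction of a class of `Ш` -/
theorem res_sha [Algebra.IsAlgebraic k k'] (hi : HInf k k') {f : Coch W} (hf : IsShaCoc W f) :
    IsShaCoc W' (res I ε f) := by
  refine ⟨res_coc I ε hf.1, fun w => ?_, fun w => ?_⟩
  · obtain ⟨v, j, hj⟩ := exists_j (k := k) w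
    letI : Algebra k (w.adicCompletion k') :=
      ((algebraMap k' (w.adicCompletion k')).comp (algebraMap k k')).toAlgebra
    haveI : IsScalarTower k k' (w.adicCompletion k') := IsScalarTower.of_algebraMap_eq fun x => rfl
    let j' : v.adicCompletion k →ₐ[k] w.adicCompletion k' := { j with commutes' := hj }
    exact res_loc I ε j' (hf.2.1 v)
  · obtain ⟨u, j, hj⟩ := hi w
    letI : Algebra k w.Completion :=
      ((algebraMap k' w.Completion).comp (algebraMap k k')).toAlgebra
    haveI : IsScalarTower k k' w.Completion := IsScalarTower.of_algebraMap_eq fun x => rfl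
    let j' : u.Completion →ₐ[k] w.Completion := { j with commutes' := hj }
    exact res_loc I ε j' (hf.2.2 u)

include I in
/-- **descent** -/
theorem descent [Normal k k'] (hi : HInf k k') {p : ℕ} (hcop : p.Coprime (Nat.card (Pt W' k')))
    (hsha : ∀ x : Sha W', p • x = 0 → x = 0) (x : Sha W) (hx : p • x = 0) : x = 0 := by
  haveI : Algebra.IsAlgebraic k (AlgebraicClosure k') := Algebra.IsAlgebraic.trans k k' _
  haveI : IsAlgClosure k (AlgebraicClosure k') := ⟨inferInstance, inferInstance⟩
  let ε : AlgebraicClosure k ≃ₐ[k] AlgebraicClosure k' :=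
    IsAlgClosure.equiv k (AlgebraicClosure k) (AlgebraicClosure k')
  obtain ⟨⟨f, hf⟩, rfl⟩ := QuotientAddGroup.mk_surjective x
  have hf' : IsShaCoc W f := hf
  have h1 : (p • (⟨f, hf⟩ : shaCoc W)) ∈ (cob W).addSubgroupOf (shaCoc W) := by
    rw [← QuotientAddGroup.eq_zero_iff]
    exact hx
  obtain ⟨P0, hP0⟩ : IsCob W (p • f) := h1
  have hp : ∀ σ, p • f σ = act W σ.toAlgHom P0 - P0 := hP0
  -- the restriction
  have hr : IsShaCoc W' (res I ε f) := res_sha I ε hi hf'
  have hrp : IsCob W' (p • res I ε f) := by
    have e1 : p • res I ε f = res I ε (p • f) := by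
      funext τ
      apply (I.e (AlgebraicClosure k')).injective
      have e2 : (p • res I ε f) τ = p • (res I ε f τ) := rfl
      have e3 : (p • f) (cj ε τ) = p • f (cj ε τ) := rfl
      rw [e2, map_nsmul, res_apply, res_apply, e3, map_nsmul]
    rw [e1]
    exact res_cob I ε ⟨P0, hP0⟩
  have h2 : (QuotientAddGroup.mk (⟨res I ε f, hr⟩ : shaCoc W') :
      shaCoc W' ⧸ (cob W').addSubgroupOf (shaCoc W')) = 0 := by
    refine hsha _ ?_
    have h3 : (p • (⟨res I ε f, hr⟩ : shaCoc W')) ∈ (cob W').addSubgroupOf (shaCoc W') := hrp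
    exact (QuotientAddGroup.eq_zero_iff _).2 h3
  have h4 : IsCob W' (res I ε f) := by
    have := (QuotientAddGroup.eq_zero_iff _).1 h2
    exact this
  refine (QuotientAddGroup.eq_zero_iff (⟨f, hf⟩ : shaCoc W)).2 ?_
  change IsCob W f
  exact cob_of_res I ε hcop hf'.1 hp h4

end

end Pool.Agent.W2helper55.TQ
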