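import Mathlib
import Pool.Agent.W2helper24.TQ.Stm2
import Pool.Agent.Y700.VC
import Pool.Agent.W2helper55.TQ.Pl

/-!
# Project TQ, piece H6: the points and the Tate-Shafarevich group of `y² = x³ - D²` over `ℚ`
-/

set_option autoImplicit false
set_option linter.all false

namespace Pool.Agent.W2helper55.TQ

open WeierstrassCurve NumberField IsDedekindDomain Polynomial
open Pool.Agent.TH841.SH.D (Pt act Gal Coch IsCoc IsCob LocTriv cob)
open Pool.Agent.TH841.NF.D (IsShaCoc shaCoc Sha)
open Pool.Agent.Y700 (VR nonsing)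
open Pool.Agent.W2helper24.TQ

section ci
variable {k k' : Type} [Field k] [Field k'] [Algebra k k'] {W : WeierstrassCurve k}
  {W' : WeierstrassCurve k'} {u r s t : k'}

theorem vrL (h : VR (W.baseChange k') W' u r s t) (L : Type) [Field L] [Algebra k L] [Algebra k' L]
    [IsScalarTower k k' L] : VR (W.baseChange L) (W'.baseChange L) (algebraMap k' L u)
      (algebraMap k' L r) (algebraMap k' L s) (algebraMap k' L t) := by
  have h1 := h.map (algebraMap k' L)
  have e : (W.baseChange k').map (algebraMap k' L) = W.baseChange L := by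
    show W.map ((algebraMap k' L).comp (algebraMap k k')) = W.map (algebraMap k L)
    rw [← IsScalarTower.algebraMap_eq]
  rw [e] at h1
  exact h1

theorem dL (hD : W'.Δ ≠ 0) (L : Type) [Field L] [Algebra k' L] :
    (W'.baseChange L).Δ ≠ 0 := by
  show (W'.map (algebraMap k' L)).Δ ≠ 0
  rw [WeierstrassCurve.map_Δ]
  exact (_root_.map_ne_zero _).2 hD

/-- the isomorphism on the points over `L` -/
noncomputable def eL (h : VR (W.baseChange k') W' u r s t) (hD : W'.Δ ≠ 0) (L : Type) [Field L]
    [Algebra k L] [Algebra k' L] [IsScalarTower k k' L] : Pt W' L ≃+ Pt W L :=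
  @VR.equiv L _ (Classical.decEq L) _ _ _ _ _ _ (vrL h L) (dL hD L)

theorem some_ext {F : Type} [Field F] {V : Affine F} {x y x' y' : F} (h : V.Nonsingular x y)
    (h' : V.Nonsingular x' y') (hx : x = x') (hy : y = y') :
    Affine.Point.some x y h = Affine.Point.some x' y' h' := by
  subst hx hy
  rfl

theorem eL_act (h : VR (W.baseChange k') W' u r s t) (hD : W'.Δ ≠ 0) {F L : Type} [Field F]
    [Algebra k F] [Algebra k' F] [IsScalarTower k k' F] [Field L] [Algebra k L] [Algebra k' L]
    [IsScalarTower k k' L] (φ : F →ₐ[k'] L) (P : Pt W' F) :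
    eL h hD L (act W' φ P) = act W (φ.restrictScalars k) (eL h hD F P) := by
  match P with
  | 0 =>
    have e1 : act W' φ (0 : Pt W' F) = 0 := map_zero _
    have e2 : eL h hD F (0 : Pt W' F) = 0 := map_zero _
    rw [e1, e2, map_zero, map_zero]
  | .some x y hn =>
    have hn1 : (W'.baseChange L).toAffine.Nonsingular (φ x) (φ y) :=
      (Affine.baseChange_nonsingular W' φ.injective ..).mpr hn
    have hn2 : (W.baseChange F).toAffine.Nonsingular
        (algebraMap k' F u ^ 2 * x + algebraMap k' F r)
        (algebraMap k' F u ^ 3 * y + algebraMap k' F u ^ 2 * algebraMap k' F s * x +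
          algebraMap k' F t) :=
      nonsing ((vrL h F).delta_ne (dL hD F)) ((vrL h F).eqn.2 hn.1)
    have hn3 : (W.baseChange L).toAffine.Nonsingular
        (algebraMap k' L u ^ 2 * φ x + algebraMap k' L r)
        (algebraMap k' L u ^ 3 * φ y + algebraMap k' L u ^ 2 * algebraMap k' L s * φ x +
          algebraMap k' L t) :=
      nonsing ((vrL h L).delta_ne (dL hD L)) ((vrL h L).eqn.2 hn1.1)
    have e1 : eL h hD F (.some x y hn : Pt W' F) = .some _ _ hn2 := rfl
    have e3 : eL h hD L (.some (φ x) (φ y) hn1 : Pt W' L) = .some _ _ hn3 := rfl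
    have e4 : act W' φ (.some x y hn : Pt W' F) = .some (φ x) (φ y) hn1 := rfl
    have e5 : act W (φ.restrictScalars k) (.some _ _ hn2 : Pt W F) = .some _ _
      ((Affine.baseChange_nonsingular W (φ.restrictScalars k).injective ..).mpr hn2) := rfl
    rw [e1, e4, e3, e5]
    refine some_ext _ _ ?_ ?_
    · rw [AlgHom.restrictScalars_apply, map_add, map_mul, map_pow, φ.commutes, φ.commutes]
    · rw [AlgHom.restrictScalars_apply, map_add, map_add, map_mul, map_mul, map_mul, map_pow,
        map_pow, φ.commutes, φ.commutes, φ.commutes]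

/-- the isomorphisms given by a change of variables -/
noncomputable def ciVR (h : VR (W.baseChange k') W' u r s t) (hD : W'.Δ ≠ 0) : CI W W' where
  e := fun L _ _ _ _ => eL h hD L
  ac := fun φ P => eL_act h hD φ P

end ci

/-! ### The fields -/

/-- the polynomial `(X² + X + 1) (X³ - D)` -/
noncomputable def qD (D : ℕ) : ℚ[X] := (X ^ 2 + X + 1) * (X ^ 3 - C (D : ℚ))

lemma qD_ne (D : ℕ) : qD D ≠ 0 := by
  unfold qD
  refine mul_ne_zero ?_ (X_pow_sub_C_ne_zero (by norm_num) _)
  intro h
  have := congrArg (Polynomial.eval 0) h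
  simp at this

theorem exists_spl (D : ℕ) : ∃ (F : Type) (_ : Field F) (_ : CharZero F),
    IsSplittingField ℚ F (qD D) := by
  refine ⟨(qD D).SplittingField, inferInstance, inferInstance, ?_⟩
  convert IsSplittingField.splittingField (qD D)
  exact Subsingleton.elim _ _

section fld
variable {F : Type} [Field F] [CharZero F] (D : ℕ) [hs : IsSplittingField ℚ F (qD D)]

include hs

theorem nf : NumberField F where
  to_charZero := inferInstance
  to_finiteDimensional := IsSplittingField.finiteDimensional F (qD D)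

theorem ex_om : ∃ w : F, w ^ 2 + w + 1 = 0 := by
  have h1 := IsSplittingField.splits F (qD D)
  have h2 : (qD D).map (algebraMap ℚ F) ≠ 0 := by
    rw [Ne, Polynomial.map_eq_zero]
    exact qD_ne D
  have h3 : (X ^ 2 + X + 1 : F[X]) ∣ (qD D).map (algebraMap ℚ F) := by
    unfold qD
    rw [Polynomial.map_mul]
    refine Dvd.intro ((X ^ 3 - C (D : ℚ)).map (algebraMap ℚ F)) ?_
    congr 1
    simp
  obtain ⟨w, hw⟩ := (h1.of_dvd h2 h3).exists_eval_eq_zero (by
    have : (X ^ 2 + X + 1 : F[X]).degree = 2 := by compute_degree!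
    rw [this]
    norm_num)
  refine ⟨w, ?_⟩
  simpa using hw

theorem ex_rt : ∃ x : F, x ^ 3 = D := by
  have h1 := IsSplittingField.splits F (qD D)
  have h2 : (qD D).map (algebraMap ℚ F) ≠ 0 := by
    rw [Ne, Polynomial.map_eq_zero]
    exact qD_ne D
  have h3 : (X ^ 3 - C (D : F) : F[X]) ∣ (qD D).map (algebraMap ℚ F) := by
    unfold qD
    rw [Polynomial.map_mul]
    refine Dvd.intro_left ((X ^ 2 + X + 1 : ℚ[X]).map (algebraMap ℚ F)) ?_
    congr 1
    simp
  obtain ⟨w, hw⟩ := (h1.of_dvd h2 h3).exists_eval_eq_zero (by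
    rw [degree_X_pow_sub_C (by norm_num)]
    norm_num)
  refine ⟨w, ?_⟩
  have : w ^ 3 - (D : F) = 0 := by simpa using hw
  exact sub_eq_zero.1 this

theorem prim {w : F} (hw : w ^ 2 + w + 1 = 0) : IsPrimitiveRoot w 3 := by
  have h3 : w ^ 3 = 1 := by linear_combination (w - 1) * hw
  refine IsPrimitiveRoot.mk_of_lt w (by norm_num) h3 ?_
  intro l hl0 hl3 hl
  interval_cases l
  · rw [pow_one] at hl
    subst hl
    norm_num at hw
  · rw [hl] at hw
    have : w = -2 := by linear_combination hw
    subst this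
    norm_num at hl

theorem ex_K : ∃ (K : Type) (_ : Field K) (_ : NumberField K) (_ : Algebra K F),
    IsCyclotomicExtension {3} ℚ K ∧
      IntermediateField.adjoin K {x : F | x ^ 3 = D} = ⊤ := by
  haveI := nf (F := F) D
  obtain ⟨w, hw⟩ := ex_om (F := F) D
  have hp := prim D hw
  let K := IntermediateField.adjoin ℚ {w}
  haveI : NumberField K := NumberField.of_intermediateField K
  refine ⟨K, inferInstance, inferInstance, inferInstance, ?_, ?_⟩
  · have h : IsCyclotomicExtension {3} ℚ K := hp.intermediateField_adjoin_isCyclotomicExtension ℚ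
    convert h
  · rw [eq_top_iff]
    intro z _
    have hz : z ∈ Algebra.adjoin ℚ ((qD D).rootSet F : Set F) := by
      rw [IsSplittingField.adjoin_rootSet F (qD D)]
      trivial
    set T := IntermediateField.adjoin K {x : F | x ^ 3 = D} with hT
    have hwK : w ∈ T := by
      have : algebraMap K F ⟨w, IntermediateField.mem_adjoin_simple_self ℚ w⟩ ∈ T := T.algebraMap_mem _
      exact this
    refine Algebra.adjoin_induction (p := fun z _ => z ∈ T) ?_ ?_ ?_ ?_ hz
    · intro y hy
      have h1 := (mem_rootSet.1 hy).2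
      unfold qD at h1
      rw [map_mul, mul_eq_zero] at h1
      rcases h1 with h1 | h1
      · have h2 : y ^ 2 + y + 1 = 0 := by simpa using h1
        have h3 : (y - w) * (y + 1 + w) = 0 := by linear_combination h2 - hw
        rcases mul_eq_zero.1 h3 with h4 | h4
        · rw [sub_eq_zero.1 h4]
          exact hwK
        · have : y = -1 - w := by linear_combination h4
          rw [this]
          exact T.sub_mem (T.neg_mem T.one_mem) hwK
      · refine IntermediateField.subset_adjoin K _ ?_
        have h2 : y ^ 3 - (D : F) = 0 := by simpa using h1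
        exact sub_eq_zero.1 h2
    · intro r
      have : algebraMap ℚ F r = (r : F) := by simp
      rw [this]
      exact SubfieldClass.ratCast_mem T r
    · intro a b _ _ ha hb
      exact T.add_mem ha hb
    · intro a b _ _ ha hb
      exact T.mul_mem ha hb

end fld

/-! ### The theorem -/

theorem vrD {F : Type} [Field F] [CharZero F] {D : ℕ} (hD : 0 < D) {x : F} (hx : x ^ 3 = D) :
    VR ((ED D ℚ).baseChange F) (Em F) x 0 0 0 := by
  have h0 : (D : F) ≠ 0 := Nat.cast_ne_zero.2 hD.ne'
  have hx0 : x ≠ 0 := by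
    rintro rfl
    apply h0
    rw [← hx]
    norm_num
  refine ⟨hx0, ?_, ?_, ?_, ?_, ?_⟩
  · simp [ED, Em, WeierstrassCurve.baseChange, WeierstrassCurve.map]
  · simp [ED, Em, WeierstrassCurve.baseChange, WeierstrassCurve.map]
  · simp [ED, Em, WeierstrassCurve.baseChange, WeierstrassCurve.map]
  · simp [ED, Em, WeierstrassCurve.baseChange, WeierstrassCurve.map]
  · have e : ((ED D ℚ).baseChange F).a₆ = -(D : F) ^ 2 := by
      simp [ED, WeierstrassCurve.baseChange, WeierstrassCurve.map]
    have e1 : ((ED D ℚ).baseChange F).a₄ = 0 := by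
      simp [ED, WeierstrassCurve.baseChange, WeierstrassCurve.map]
    rw [e, e1]
    have e2 : (Em F).a₆ = -1 := rfl
    rw [e2, ← hx]
    ring

theorem disc_m (F : Type) [Field F] [CharZero F] : (Em F).Δ ≠ 0 := by
  have : (Em F).Δ = -432 := by
    simp only [Em, WeierstrassCurve.Δ, WeierstrassCurve.b₂, WeierstrassCurve.b₄,
      WeierstrassCurve.b₆, WeierstrassCurve.b₈]
    norm_num
  rw [this]
  norm_num

theorem bc_self {F : Type} [Field F] (W : WeierstrassCurve F) : W.baseChange F = W := by
  rw [WeierstrassCurve.baseChange, Algebra.algebraMap_self]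
  exact W.map_id

theorem piece' (h8 : P_A8) (h10 : P_A10) (h2 : P_E2) : P_H6 := by
  intro D hD
  obtain ⟨F, _, _, hs⟩ := exists_spl D
  haveI := nf (F := F) D
  haveI : Normal ℚ F := Normal.of_isSplittingField (qD D)
  obtain ⟨x, hx⟩ := ex_rt (F := F) D
  obtain ⟨K, _, _, _, hK, hT⟩ := ex_K (F := F) D
  haveI := hK
  obtain ⟨hG, ⟨n, hn⟩, hR⟩ := h2 K F ⟨{x : F | x ^ 3 = D}, hT, fun y hy => ⟨D, hD, hy⟩⟩
  haveI := hG
  obtain ⟨hfin, hcard⟩ := h10 K F n hn hR
  have hsha := h8 K F n hn hR
  let I : CI (ED D ℚ) (Em F) := ciVR (vrD hD.1 hx) (disc_m F)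
  -- the points over `F`
  have e1 : Pt (Em F) F = (Em F).toAffine.Point := by
    unfold Pt
    rw [bc_self]
  have hfin' : Finite (Pt (Em F) F) := by rw [e1]; exact hfin
  have hcard' : ¬ 3 ∣ Nat.card (Pt (Em F) F) := by rw [e1]; exact hcard
  -- the points over `ℚ`
  have e2 : (ED D ℚ).toAffine.Point = Pt (ED D ℚ) ℚ := by
    unfold Pt
    rw [bc_self]
  let φ : Pt (ED D ℚ) ℚ →+ Pt (Em F) F :=
    ((I.e F).symm : Pt (ED D ℚ) F →+ Pt (Em F) F).comp (act (ED D ℚ) (Algebra.ofId ℚ F))
  have hφ : Function.Injective φ := (I.e F).symm.injective.comp (act_inj (ED D ℚ) (Algebra.ofId ℚ F))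
  refine ⟨?_, ?_, ?_⟩
  · rw [e2]
    exact Finite.of_injective φ hφ
  · rw [e2]
    intro h
    exact hcard' (h.trans (AddSubgroup.card_dvd_of_injective φ hφ))
  · have h3 : ∀ y : Sha (ED D ℚ), 3 • y = 0 → y = 0 := fun y hy =>
      descent I (hinf_rat F) ((Nat.Prime.coprime_iff_not_dvd (by norm_num)).2 hcard') hsha y hy
    intro m
    induction m with
    | zero =>
      intro y hy
      simpa using hy
    | succ m ih =>
      intro y hy
      apply h3
      apply ih
      rw [smul_smul, ← pow_succ]
      exact hy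

end Pool.Agent.W2helper55.TQ
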