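import Mathlib
import Pool.Agent.W2helper55.TQ.H6

/-!
# Descent of the Tate-Shafarevich group along a Galois extension of number fields
-/

set_option autoImplicit false
set_option linter.all false

namespace Pool.Agent.W2helper55.TQ

open WeierstrassCurve NumberField IsDedekindDomain
open Pool.Agent.TH841.SH.D (Pt act Gal Coch IsCoc IsCob LocTriv cob)
open Pool.Agent.TH841.NF.D (IsShaCoc shaCoc Sha)
open Pool.Agent.Y700 (VR nonsing)

open scoped NumberField.LiesOver in
/-- the homomorphisms of the completions at the infinite places exist -/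
theorem hinf (k k' : Type) [Field k] [NumberField k] [Field k'] [NumberField k'] [Algebra k k'] :
    HInf k k' := by
  intro w
  let v : InfinitePlace k := w.comap (algebraMap k k')
  haveI : w.LiesOver v := ⟨rfl⟩
  refine ⟨v, algebraMap v.Completion w.Completion, fun x => ?_⟩
  rw [← IsScalarTower.algebraMap_apply k v.Completion w.Completion]
  rfl

/-- the identity as a change of variables -/
theorem vr_refl {F : Type} [Field F] (W : WeierstrassCurve F) : VR W W 1 0 0 0 := by
  refine ⟨one_ne_zero, ?_, ?_, ?_, ?_, ?_⟩ <;> ring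

/-- **descent**, for curves that become isomorphic over `F`: if `p` is prime to the order of the group
of the points of `W'` over `F` and `Ш(W')` has no element of order `p`, then `Ш(W)` has no element of
order `p` -/
theorem sha_down_vr {k F : Type} [Field k] [NumberField k] [Field F] [NumberField F] [Algebra k F]
    [Normal k F] {W : WeierstrassCurve k} {W' : WeierstrassCurve F} {u r s t : F}
    (h : VR (W.baseChange F) W' u r s t) (hD : W'.Δ ≠ 0) {p : ℕ}
    (hcop : p.Coprime (Nat.card W'.toAffine.Point))
    (hsha : ∀ x : Sha W', p • x = 0 → x = 0) (x : Sha W) (hx : p • x = 0) : x = 0 := by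
  have e1 : Pt W' F = W'.toAffine.Point := by
    unfold Pt
    rw [bc_self]
  exact descent (ciVR h hD) (hinf k F) (by rw [e1]; exact hcop) hsha x hx

/-- **descent** for the base change of a curve -/
theorem sha_down {k F : Type} [Field k] [NumberField k] [Field F] [NumberField F] [Algebra k F]
    [Normal k F] (W : WeierstrassCurve k) (hD : W.Δ ≠ 0) {p : ℕ}
    (hcop : p.Coprime (Nat.card (W.baseChange F).toAffine.Point))
    (hsha : ∀ x : Sha (W.baseChange F), p • x = 0 → x = 0) (x : Sha W) (hx : p • x = 0) : x = 0 :=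
  sha_down_vr (vr_refl (W.baseChange F)) (dL hD F) hcop hsha x hx

/-- the points over the smaller field -/
theorem pts_down_vr {k F : Type} [Field k] [Field F] [Algebra k F]
    {W : WeierstrassCurve k} {W' : WeierstrassCurve F} {u r s t : F}
    (h : VR (W.baseChange F) W' u r s t) (hD : W'.Δ ≠ 0) (hfin : Finite W'.toAffine.Point) :
    Finite W.toAffine.Point ∧ Nat.card W.toAffine.Point ∣ Nat.card W'.toAffine.Point := by
  have e1 : Pt W' F = W'.toAffine.Point := by
    unfold Pt
    rw [bc_self]
  have e2 : W.toAffine.Point = Pt W k := by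
    unfold Pt
    rw [bc_self]
  have hfin' : Finite (Pt W' F) := by rw [e1]; exact hfin
  let φ : Pt W k →+ Pt W' F :=
    (((ciVR h hD).e F).symm : Pt W F →+ Pt W' F).comp (act W (Algebra.ofId k F))
  have hφ : Function.Injective φ :=
    ((ciVR h hD).e F).symm.injective.comp (act_inj W (Algebra.ofId k F))
  rw [e2, ← e1]
  exact ⟨Finite.of_injective φ hφ, AddSubgroup.card_dvd_of_injective φ hφ⟩

/-- `y² = x³ - 1` -/
theorem vr_Em (k F : Type) [Field k] [Field F] [Algebra k F] :
    VR ((Pool.Agent.W2helper24.TQ.Em k).baseChange F) (Pool.Agent.W2helper24.TQ.Em F) 1 0 0 0 := by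
  refine ⟨one_ne_zero, ?_, ?_, ?_, ?_, ?_⟩ <;>
    simp [Pool.Agent.W2helper24.TQ.Em, WeierstrassCurve.baseChange, WeierstrassCurve.map]

open Pool.Agent.W2helper24.TQ in
/-- `y² = x³ - 1` over a subfield `k` of `F` -/
theorem em_down {k F : Type} [Field k] [NumberField k] [Field F] [NumberField F] [Algebra k F]
    [Normal k F] (hfin : Finite (Em F).toAffine.Point) (hcard : ¬ 3 ∣ Nat.card (Em F).toAffine.Point)
    (hsha : ∀ x : Sha (Em F), 3 • x = 0 → x = 0) :
    (Finite (Em k).toAffine.Point ∧ ¬ 3 ∣ Nat.card (Em k).toAffine.Point) ∧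
      ∀ (n : ℕ) (x : Sha (Em k)), 3 ^ n • x = 0 → x = 0 := by
  obtain ⟨h1, h2⟩ := pts_down_vr (vr_Em k F) (disc_m F) hfin
  refine ⟨⟨h1, fun h => hcard (h.trans h2)⟩, ?_⟩
  have h3 : ∀ y : Sha (Em k), 3 • y = 0 → y = 0 := fun y hy =>
    sha_down_vr (vr_Em k F) (disc_m F) ((Nat.Prime.coprime_iff_not_dvd (by norm_num)).2 hcard)
      hsha y hy
  intro m
  induction m with
  | zero =>
    intro y hy
    simpa using hy
  | succ m ih =>
    intro y hy
    apply h3
    apply ih
    rw [smul_smul, ← pow_succ]
    exact hy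

end Pool.Agent.W2helper55.TQ
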