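import Mathlib
import Pool.Agent.W2helper24.TQ.All
import Pool.Agent.W2helper55.TQ.H6

/-!
# Project TQ, piece H6
-/

set_option autoImplicit false

namespace Pool.Agent.W2helper55.TQ

open Pool.Agent.W2helper24.TQ

theorem piece (h8 : P_A8) (h2 : P_E2) : P_H6 := piece' h8 A10 h2

end Pool.Agent.W2helper55.TQ
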